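import Pool.Agent.Helper61.EP.StC

set_option autoImplicit false

open MeasureTheory Set Filter Topology
open scoped ENNReal RealInnerProductSpace

namespace Pool.Agent.Helper60.EP

open Pool.Agent.Helper61.EP Pool.Agent.Helper20.RG Pool.Agent.Helper20.RL
open Pool.Agent.Helper68.LM (Pl BB Bd Av HL ft fm DQ)

theorem hCCS (hLRS : Pool.Agent.Helper20.RL.StLRS) (hCCR : StCCR) : StCCS := by
  intro A p s γ Cf ε ε₂ hA hEx hCf hε hε₂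
  obtain ⟨r1, r2, r3, r4⟩ := hLRS
  obtain ⟨u₀, ε₃, C, ε', hε₃, hC, hε', hmain⟩ := hCCR A p s γ Cf ε ε₂ hA hEx hCf hε hε₂
  refine ⟨u₀, ε₃, C, ε', hε₃, hC, hε', ?_⟩
  intro u K t th sl c m F hu hSlo hcm hK hth hF hD
  set F' : Set Pl := {z : Pl | (2 : ℝ) ^ t • z ∈ F} with hF'
  have h4 : (0 : ℝ) < (4 : ℝ) ^ t := zpow_pos (by norm_num) t
  have h4n : (0 : ℝ) < (4 : ℝ) ^ (-t) := zpow_pos (by norm_num) _
  have h44 : (4 : ℝ) ^ t * (4 : ℝ) ^ (-t) = 1 := by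
    rw [← zpow_add₀ (by norm_num : (4 : ℝ) ≠ 0)]; simp
  have hCtl : Ctl (D8 s u) F' := by
    intro y k
    have e1 : F' ∩ Sq y ((2 : ℝ) ^ k) =
        {x : Pl | (2 : ℝ) ^ t • x ∈ F ∩ Sq ((2 : ℝ) ^ t • y) ((2 : ℝ) ^ t * (2 : ℝ) ^ k)} := by
      have h := r4 y t ((2 : ℝ) ^ k)
      rw [← h]
      rfl
    rw [e1, r2]
    have e2 : (2 : ℝ) ^ t * (2 : ℝ) ^ k = (2 : ℝ) ^ (t + (k : ℤ)) := by
      rw [zpow_add₀ (by norm_num : (2 : ℝ) ≠ 0), zpow_natCast]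
    rw [e2]
    calc ENNReal.ofReal ((4 : ℝ) ^ (-t)) * volume (F ∩ Sq ((2 : ℝ) ^ t • y) ((2 : ℝ) ^ (t + (k : ℤ))))
        ≤ ENNReal.ofReal ((4 : ℝ) ^ (-t)) *
          ENNReal.ofReal (D8 s u * (4 : ℝ) ^ (t + (k : ℤ))) := by
          gcongr
          exact hD _ _ (by omega)
      _ = ENNReal.ofReal (D8 s u * (4 : ℝ) ^ k) := by
          rw [← ENNReal.ofReal_mul h4n.le]
          congr 1
          rw [zpow_add₀ (by norm_num : (4 : ℝ) ≠ 0), zpow_natCast]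
          calc (4 : ℝ) ^ (-t) * (D8 s u * ((4 : ℝ) ^ t * (4 : ℝ) ^ k))
              = ((4 : ℝ) ^ t * (4 : ℝ) ^ (-t)) * (D8 s u * (4 : ℝ) ^ k) := by ring
            _ = D8 s u * (4 : ℝ) ^ k := by rw [h44, one_mul]
  have hres := hmain u K th sl c m F' hu hSlo hcm hK hth (r3 F t hF) hCtl
  have hvF : volume F' = ENNReal.ofReal ((4 : ℝ) ^ (-t)) * volume F := r2 F t
  have hvS : ∀ k : ℕ, volume {x | (2 : ℝ) ^ (-(ε₃ * u)) ≤ trS (2 ^ u) th (fun j =>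
        Y (sl j) (c j) (m j) (1 / (2 : ℝ) ^ u) (k : ℤ) (F'.indicator 1) x)} =
      ENNReal.ofReal ((4 : ℝ) ^ (-t)) * volume {x | (2 : ℝ) ^ (-(ε₃ * u)) ≤ trS (2 ^ u) th (fun j =>
        Y (sl j) (c j) (m j) (1 / (2 : ℝ) ^ u) (t + (k : ℤ)) (F.indicator 1) x)} := by
    intro k
    rw [← r2]
    congr 1
    ext x
    simp only [mem_ofPred_eq]
    have e : (fun j => Y (sl j) (c j) (m j) (1 / (2 : ℝ) ^ u) (t + (k : ℤ)) (F.indicator 1) ((2 : ℝ) ^ t • x)) =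
        (fun j => Y (sl j) (c j) (m j) (1 / (2 : ℝ) ^ u) (k : ℤ) (F'.indicator 1) x) := by
      funext j
      rw [r1 F t (t + (k : ℤ))]
      congr 1
      omega
    rw [e]
  rw [Finset.sum_congr rfl (fun k _ => hvS k), ← Finset.mul_sum, hvF] at hres
  -- multiply by `4^t`
  have h1 : ENNReal.ofReal ((4 : ℝ) ^ t) * ENNReal.ofReal ((4 : ℝ) ^ (-t)) = 1 := by
    rw [← ENNReal.ofReal_mul h4.le, h44, ENNReal.ofReal_one]
  have hres2 := mul_le_mul' (le_refl (ENNReal.ofReal ((4 : ℝ) ^ t))) hres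
  calc ∑ k ∈ Finset.range K, volume {x | (2 : ℝ) ^ (-(ε₃ * u)) ≤ trS (2 ^ u) th (fun j =>
        Y (sl j) (c j) (m j) (1 / (2 : ℝ) ^ u) (t + (k : ℤ)) (F.indicator 1) x)}
      = ENNReal.ofReal ((4 : ℝ) ^ t) * (ENNReal.ofReal ((4 : ℝ) ^ (-t)) *
        ∑ k ∈ Finset.range K, volume {x | (2 : ℝ) ^ (-(ε₃ * u)) ≤ trS (2 ^ u) th (fun j =>
        Y (sl j) (c j) (m j) (1 / (2 : ℝ) ^ u) (t + (k : ℤ)) (F.indicator 1) x)}) := by
        rw [← mul_assoc, h1, one_mul]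
    _ ≤ ENNReal.ofReal ((4 : ℝ) ^ t) * (ENNReal.ofReal (C * (2 : ℝ) ^ ((p - ε') * u)) *
        (ENNReal.ofReal ((4 : ℝ) ^ (-t)) * volume F)) := hres2
    _ = (ENNReal.ofReal ((4 : ℝ) ^ t) * ENNReal.ofReal ((4 : ℝ) ^ (-t))) *
        (ENNReal.ofReal (C * (2 : ℝ) ^ ((p - ε') * u)) * volume F) := by ring
    _ = ENNReal.ofReal (C * (2 : ℝ) ^ ((p - ε') * u)) * volume F := by rw [h1, one_mul]

end Pool.Agent.Helper60.EP
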