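import Pool.Agent.Helper68.EP.St1

set_option autoImplicit false

open MeasureTheory Set Filter Topology
open scoped ENNReal RealInnerProductSpace

namespace Pool.Agent.Helper60.EP

open Pool.Agent.Helper68.LM (Pl BB Bd Av HL ft fm DQ)
open Pool.Agent.Helper68.EP
open Pool.Agent.Helper20.RG
open Pool.Agent.Helper20.RL (RQ Rich BM Fml)

theorem fl_near (x y : ℝ) (h : |x - y| ≤ 1) : |⌊x⌋ - ⌊y⌋| ≤ 1 := by
  rw [abs_le] at h ⊢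
  have h1 := Int.floor_le x
  have h2 := Int.lt_floor_add_one x
  have h3 := Int.floor_le y
  have h4 := Int.lt_floor_add_one y
  constructor
  · have : (⌊y⌋ : ℝ) - ⌊x⌋ < 2 := by linarith
    have h' : ⌊y⌋ - ⌊x⌋ < 2 := by exact_mod_cast this
    omega
  · have : (⌊x⌋ : ℝ) - ⌊y⌋ < 2 := by linarith
    have h' : ⌊x⌋ - ⌊y⌋ < 2 := by exact_mod_cast this
    omega

theorem near_fl (x y : ℝ) (h : |⌊x⌋ - ⌊y⌋| ≤ 1) : |x - y| ≤ 2 := by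
  rw [abs_le] at h ⊢
  have h1 := Int.floor_le x
  have h2 := Int.lt_floor_add_one x
  have h3 := Int.floor_le y
  have h4 := Int.lt_floor_add_one y
  obtain ⟨ha, hb⟩ := h
  have ha' : (-1 : ℝ) ≤ (⌊x⌋ : ℝ) - ⌊y⌋ := by exact_mod_cast ha
  have hb' : (⌊x⌋ : ℝ) - ⌊y⌋ ≤ 1 := by exact_mod_cast hb
  constructor <;> linarith

theorem mem_DQ {b : ℤ} {z y : Pl} : y ∈ DQ b z ↔ ⌊y 0 / (2 : ℝ) ^ b⌋ = ⌊z 0 / (2 : ℝ) ^ b⌋ ∧
    ⌊y 1 / (2 : ℝ) ^ b⌋ = ⌊z 1 / (2 : ℝ) ^ b⌋ := by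
  unfold DQ
  rw [mem_setOf_eq, Fin.forall_fin_two]

theorem mem_DQ3 {b : ℤ} {z y : Pl} : y ∈ DQ3 b z ↔ |⌊y 0 / (2 : ℝ) ^ b⌋ - ⌊z 0 / (2 : ℝ) ^ b⌋| ≤ 1 ∧
    |⌊y 1 / (2 : ℝ) ^ b⌋ - ⌊z 1 / (2 : ℝ) ^ b⌋| ≤ 1 := Iff.rfl

theorem DQ_eq (b : ℤ) (z : Pl) : DQ b z = RQ 0 b b z := by
  ext y
  rw [mem_DQ]
  unfold RQ pr
  rw [mem_setOf_eq]
  simp

theorem meas_fl (b : ℤ) : Measurable (fun z : Pl => ((⌊z 0 / (2 : ℝ) ^ b⌋, ⌊z 1 / (2 : ℝ) ^ b⌋) : ℤ × ℤ)) := by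
  have h : ∀ i : Fin 2, Measurable (fun z : Pl => z i) := fun i => by fun_prop
  exact ((h 0).div_const _).floor.prodMk ((h 1).div_const _).floor

theorem hEQ (hPT : Pool.Agent.Helper20.RG.StPT) (hLGR : Pool.Agent.Helper20.RL.StLGR) : StEQ := by
  obtain ⟨hL1, hL2, hL3, hL4, hL5⟩ := hLGR
  have hpos : ∀ b : ℤ, (0 : ℝ) < (2 : ℝ) ^ b := fun b => zpow_pos (by norm_num) b
  have hmeas : ∀ b z, MeasurableSet (DQ3 b z) := by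
    intro b z
    have : DQ3 b z = (fun y : Pl => ((⌊y 0 / (2 : ℝ) ^ b⌋, ⌊y 1 / (2 : ℝ) ^ b⌋) : ℤ × ℤ)) ⁻¹'
      {q : ℤ × ℤ | |q.1 - ⌊z 0 / (2 : ℝ) ^ b⌋| ≤ 1 ∧ |q.2 - ⌊z 1 / (2 : ℝ) ^ b⌋| ≤ 1} := by
      ext y
      rw [mem_DQ3]
      rfl
    rw [this]
    exact (meas_fl b) (Set.to_countable _).measurableSet
  have hSq : ∀ (b : ℤ) (z : Pl), Sq z ((2 : ℝ) ^ b) ⊆ DQ3 b z := by
    intro b z y hy
    obtain ⟨h0, h1⟩ := hy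
    have key : ∀ u v : ℝ, |u - v| ≤ (2 : ℝ) ^ b → |⌊u / (2 : ℝ) ^ b⌋ - ⌊v / (2 : ℝ) ^ b⌋| ≤ 1 := by
      intro u v huv
      apply fl_near
      rw [← sub_div, abs_div, abs_of_pos (hpos b), div_le_one (hpos b)]
      exact huv
    exact ⟨key _ _ h0, key _ _ h1⟩
  have hSq2 : ∀ (b : ℤ) (z : Pl), DQ3 b z ⊆ Sq z (2 * (2 : ℝ) ^ b) := by
    intro b z y hy
    obtain ⟨h0, h1⟩ := hy
    have key : ∀ u v : ℝ, |⌊u / (2 : ℝ) ^ b⌋ - ⌊v / (2 : ℝ) ^ b⌋| ≤ 1 → |u - v| ≤ 2 * (2 : ℝ) ^ b := by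
      intro u v huv
      have := near_fl _ _ huv
      rw [← sub_div, abs_div, abs_of_pos (hpos b), div_le_iff₀ (hpos b)] at this
      exact this
    exact ⟨key _ _ h0, key _ _ h1⟩
  have hnest : ∀ (b b' : ℤ) (z : Pl), b ≤ b' → DQ b z ⊆ DQ b' z := by
    intro b b' z hbb
    rw [DQ_eq, DQ_eq]
    exact hL3 0 b b b' b' z hbb hbb
  refine ⟨fun b z => ⟨hmeas b z, ?_, ?_, DQ_eq b z⟩, fun b z => ⟨hSq b z, hSq2 b z⟩, ?_, hnest, ?_, ?_⟩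
  · rw [mem_DQ]
    exact ⟨rfl, rfl⟩
  · intro y hy
    rw [mem_DQ] at hy
    rw [mem_DQ3, hy.1, hy.2]
    simp
  · intro b b' z z' hbb hz'
    have h1 := hnest b b' z hbb hz'
    rw [mem_DQ] at h1
    constructor
    · ext y
      rw [mem_DQ3, mem_DQ3, h1.1, h1.2]
    · ext y
      rw [mem_DQ, mem_DQ, h1.1, h1.2]
  · intro s b z hs y hy
    obtain ⟨h0, h1, h2⟩ := hL4 s b b z y hs hy
    apply hSq
    have e : (2 : ℝ) ^ (b + 1) = (2 : ℝ) ^ b + (2 : ℝ) ^ b := by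
      rw [zpow_add₀ (by norm_num)]
      norm_num
      ring
    have := hpos b
    refine ⟨?_, ?_⟩
    · rw [e]
      linarith
    · rw [e]
      exact h2.le
  · intro E b
    constructor
    · have : (fun z : Pl => volume (E ∩ DQ3 b z)) =
        (fun q : ℤ × ℤ => volume (E ∩ {y : Pl | |⌊y 0 / (2 : ℝ) ^ b⌋ - q.1| ≤ 1 ∧ |⌊y 1 / (2 : ℝ) ^ b⌋ - q.2| ≤ 1})) ∘
        (fun y : Pl => ((⌊y 0 / (2 : ℝ) ^ b⌋, ⌊y 1 / (2 : ℝ) ^ b⌋) : ℤ × ℤ)) := by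
        funext z
        rfl
      rw [this]
      exact (measurable_of_countable _).comp (meas_fl b)
    · have : (fun z : Pl => volume (E ∩ DQ b z)) =
        (fun q : ℤ × ℤ => volume (E ∩ {y : Pl | ⌊y 0 / (2 : ℝ) ^ b⌋ = q.1 ∧ ⌊y 1 / (2 : ℝ) ^ b⌋ = q.2})) ∘
        (fun y : Pl => ((⌊y 0 / (2 : ℝ) ^ b⌋, ⌊y 1 / (2 : ℝ) ^ b⌋) : ℤ × ℤ)) := by
        funext z
        simp only [Function.comp]
        congr 2
        ext y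
        rw [mem_DQ]
        rfl
      rw [this]
      exact (measurable_of_countable _).comp (meas_fl b)

end Pool.Agent.Helper60.EP
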